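import Pool.Agent.N70.ES.Stm2

/-!
Project ES (helper70): GS, orbits of a splitting (helper323).
-/

set_option autoImplicit false

namespace Pool.Agent.N323.ES

open Pool.Agent.H391R2 Pool.Agent.H391R2.T4 Pool.Agent.Y793 Pool.Agent.N70.ES

section

variable {H B : Type} [Group H] [Group B] (a : B →* H) (χ : H →* ℤˣ) (n : ℕ)
  (s : H →* AltTw a χ n) (hs : ∀ h, twProj a χ n (s h) = h)

/-- the permutation of the labels -/
def prm : H →* Equiv.Perm (Fin n) where
  toFun h := (s h).1.1.right
  map_one' := by rw [map_one]; rfl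
  map_mul' x y := by rw [map_mul]; rfl

include hs in
theorem a_left (h : H) (i : Fin n) : a ((s h).1.1.left i) = h := by
  have h1 : a ((s h).1.1.left i) = (s h).1.2 := (Subgroup.mem_inf.1 (s h).2).1 i
  rw [h1]
  exact hs h

theorem left_mul (x y : H) (i : Fin n) :
    (s (x * y)).1.1.left i = (s x).1.1.left i * (s y).1.1.left ((prm a χ n s x)⁻¹ i) := by
  rw [map_mul]
  rfl

/-- the splitting over the stabilizer -/
def stb (i : Fin n) (U : Subgroup H) (hU : ∀ u ∈ U, prm a χ n s u i = i) : U →* B where
  toFun u := (s u).1.1.left i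
  map_one' := by
    show (s 1).1.1.left i = 1
    rw [map_one]
    rfl
  map_mul' x y := by
    show (s (x * y)).1.1.left i = (s x).1.1.left i * (s y).1.1.left i
    rw [left_mul]
    have h1 : (prm a χ n s x)⁻¹ i = i := by
      rw [Equiv.Perm.inv_eq_iff_eq]
      exact (hU x x.2).symm
    rw [h1]

end

theorem t_gs : Pool.Agent.N70.ES.St_gs := by
  intro H B _ _ _ a χ n d hspl hd
  obtain ⟨s, hs⟩ := hspl
  let act : MulAction H (Fin n) := MulAction.compHom (Fin n) (prm a χ n s)
  have hact : ∀ (h : H) (i : Fin n), h • i = prm a χ n s h i := fun _ _ => rfl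
  have horb : ∀ i : Fin n, d ∣ Nat.card (MulAction.orbit H i) := by
    intro i
    have h1 := hd (MulAction.stabilizer H i) (stb a χ n s i (MulAction.stabilizer H i)
      (fun u hu => by
        have h2 := MulAction.mem_stabilizer_iff.1 hu
        rw [hact] at h2
        exact h2)) (fun u => a_left a χ n s hs u i)
    rw [MulAction.index_stabilizer] at h1
    rwa [Nat.card_coe_set_eq]
  have h2 : n = Nat.card (Fin n) := by simp
  have : Fintype (MulAction.orbitRel.Quotient H (Fin n)) := Fintype.ofFinite _
  rw [h2, Nat.card_congr (MulAction.selfEquivSigmaOrbits H (Fin n)), Nat.card_sigma]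
  exact Finset.dvd_sum fun ω _ => horb _

end Pool.Agent.N323.ES
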